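import Pool.Agent.Y152.AS.Defs
import Pool.Agent.TH829.Kim.Defs
import Mathlib.Data.Matrix.Mul

/-!
# Curves with commuting involutions and surfaces dominated by quotients of products: definitions
-/

open CategoryTheory AlgebraicGeometry

universe u v w

namespace Pool.Agent.R904.Voi

open Pool.Agent.H914 Pool.Agent.H914.VarClass Pool.Agent.H914.VarClass.Obj Pool.Agent.W492.BB
  Pool.Agent.W550.Corr Pool.Agent.TH133 Pool.Agent.TH829.Kim Pool.Agent.Y152.AS

variable {k : Type u} [Field k] {𝒱 : VarClass k}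

/-- The group `G = (ℤ/2)^r`, written additively. -/
abbrev Two (r : ℕ) : Type := Fin r → ZMod 2

/-- The value `(-1)^(φ · g)` of the character `φ ∈ (ℤ/2)^r` of the group `(ℤ/2)^r` at `g`. -/
def chi {r : ℕ} (φ g : Two r) : ℚ := if φ ⬝ᵥ g = 0 then 1 else -1

/-- For a zero-cycle class `e` on `X`: the correspondence `[Δ] - e × X - X × e`. If `X` is a curve
and `e` has degree one this is the projector defining the motive `h^1(X)`. -/
noncomputable def midProj (C : TheoryData.{u, v, 0} 𝒱 ℚ) {X : 𝒱.Obj} (e : C.A X) :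
    C.A (X.prod X) := dg C X - C.up (fst X X) e - C.up (snd X X) e

/-- The component `2^(-r) ∑_g φ(g) · (id × g)^* π` of the correspondence `π = [Δ] - e × X - X × e`
for the character `φ` of the group `(ℤ/2)^r` acting on `X` by the automorphisms `a g`. If `X` is a
curve and `e` is an invariant class of degree one, it is the projector defining the part `h^1(X)_φ`
of `h^1(X)` on which `g` acts as multiplication by `φ(g)`. -/
noncomputable def charProj (C : TheoryData.{u, v, 0} 𝒱 ℚ) {X : 𝒱.Obj} {r : ℕ}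
    (a : Two r → (X ⟶ X)) (e : C.A X) (φ : Two r) : C.A (X.prod X) :=
  ((2 : ℚ) ^ r)⁻¹ • ∑ g : Two r, chi φ g • C.up (prodMap (𝟙 X) (a g)) (midProj C e)

/-- `X` is a curve on which the group `(ℤ/2)^r` acts by the automorphisms `a g`, and `γ φ` is half
of the rank of the part `h^1(X)_φ` of `h^1(X)` belonging to the character `φ`, in the sense of
Kimura: the symmetric power `Sym^(2 γ(φ) + 1) h^1(X)_φ` is zero. (All curves have this property, by
the theorem of Kimura, if `2 γ φ` is the dimension of the part `H^1(X)_φ` of `H^1(X)`; so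
`∑ γ φ` is the genus of `X`.) Here `e` is an invariant class of degree one. -/
structure IsCurveWithGenera (C : TheoryData.{u, v, 0} 𝒱 ℚ) (X : 𝒱.Obj) {r : ℕ}
    (a : Two r → (X ⟶ X)) (γ : Two r → ℕ) : Prop where
  dim_eq : X.dim = 1
  act_zero : a 0 = 𝟙 X
  act_add : ∀ g h, a (g + h) = a g ≫ a h
  kimura : ∃ e : C.A X, C.Deg 1 e ∧ HasDegree C e 1 ∧ (∀ g, C.up (a g) e = e) ∧
    ∀ (φ : Two r) (W : 𝒱.Obj) (x y : Fin (2 * γ φ + 1) → (W ⟶ X)),
      symPower C (charProj C a e φ) x y = 0

/-- The surface `S` is dominated by the quotient `(X × Y) / G` by the diagonal action of the group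
`G = (ℤ/2)^r`: there is a correspondence `b ∈ CH^2((X × Y) × S)_ℚ` which is invariant under the
action of `G` on `X × Y` and such that `b_* (ᵗb)_*` is the multiplication by a rational number
`N ≠ 0` on the Albanese kernel of `S` (for example `b` is the graph of a rational map of degree `N`
from `X × Y` to `S` which factors through `(X × Y) / G`). -/
def IsDominatedByQuotient (C : TheoryData.{u, v, 0} 𝒱 ℚ) {X Y : 𝒱.Obj} {r : ℕ}
    (a : Two r → (X ⟶ X)) (a' : Two r → (Y ⟶ Y)) (S : 𝒱.Obj) : Prop :=
  S.dim = 2 ∧ ∃ (b : C.A ((X.prod Y).prod S)) (N : ℚ), C.Deg 2 b ∧ N ≠ 0 ∧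
    (∀ g, C.up (prodMap (prodMap (a g) (a' g)) (𝟙 S)) b = b) ∧
    ∀ α : C.A S, InAlbKer C α → C.act b (C.act (tp C b) α) = N • α

end Pool.Agent.R904.Voi
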