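import Pool.Agent.R904.Voi.Trans
import Pool.Agent.R904.Voi.Defs

/-!
# The projectors of curves with commuting involutions
-/

open CategoryTheory AlgebraicGeometry

universe u v w

namespace Pool.Agent.R904.Voi

open Pool.Agent.H914 Pool.Agent.H914.VarClass Pool.Agent.H914.VarClass.Obj Pool.Agent.W492.BB
  Pool.Agent.W550.Corr Pool.Agent.TH133 Pool.Agent.TH829.Kim Pool.Agent.Y152.AS

variable {k : Type u} [Field k] {𝒱 : VarClass k}

variable {C : TheoryData.{u, v, 0} 𝒱 ℚ} [hC : IsChowProj C] {X Y Z W V T S : 𝒱.Obj}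

section char

variable {r : ℕ}

lemma chi_mul (φ g h : Two r) : chi φ g * chi φ h = chi φ (g + h) := by
  unfold chi
  rw [dotProduct_add]
  generalize φ ⬝ᵥ g = x
  generalize φ ⬝ᵥ h = y
  fin_cases x <;> fin_cases y <;> simp <;> decide

lemma chi_zero (φ : Two r) : chi φ 0 = 1 := by
  unfold chi
  rw [dotProduct_zero, if_pos rfl]

lemma two_self (g : Two r) : g + g = 0 := by
  funext i
  exact CharTwo.add_self_eq_zero _

lemma chi_add_left (φ ψ g : Two r) : chi (φ + ψ) g = chi φ g * chi ψ g := by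
  unfold chi
  rw [add_dotProduct]
  generalize φ ⬝ᵥ g = x
  generalize ψ ⬝ᵥ g = y
  fin_cases x <;> fin_cases y <;> simp <;> decide

lemma sum_chi (g : Two r) : ∑ φ : Two r, chi φ g = if g = 0 then (2 : ℚ) ^ r else 0 := by
  split_ifs with h
  · subst h
    simp only [chi_zero, Finset.sum_const, Finset.card_univ, nsmul_eq_mul, mul_one]
    simp [ZMod.card]
  · obtain ⟨i, hi⟩ : ∃ i, g i ≠ 0 := by
      by_contra hcon
      push Not at hcon
      exact h (funext hcon)
    have h1 : chi (Pi.single i 1 : Two r) g = -1 := by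
      unfold chi
      rw [single_dotProduct, one_mul, if_neg hi]
    have h2 : ∑ φ : Two r, chi φ g = -∑ φ : Two r, chi φ g := by
      conv_lhs => rw [← Equiv.sum_comp (Equiv.addRight (Pi.single i 1 : Two r))]
      rw [← Finset.sum_neg_distrib]
      refine Finset.sum_congr rfl fun φ _ => ?_
      rw [Equiv.coe_addRight, chi_add_left, h1]
      ring
    linarith

end char

include hC

lemma smul_comp1 (q : ℚ) (Γ : C.A (X.prod Y)) (Δ : C.A (Y.prod Z)) :
    C.comp (q • Γ) Δ = q • C.comp Γ Δ := by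
  rw [← compL_apply C Γ Δ, ← compL_apply C (q • Γ) Δ, map_smul (compL C), LinearMap.smul_apply]

lemma comp_smul1 (q : ℚ) (Γ : C.A (X.prod Y)) (Δ : C.A (Y.prod Z)) :
    C.comp Γ (q • Δ) = q • C.comp Γ Δ := by
  rw [← compL_apply C Γ Δ, ← compL_apply C Γ (q • Δ), map_smul (compL C Γ)]

lemma comp_pull_fst (e : C.A X) (Δ : C.A (Y.prod Z)) (x : W ⟶ X) (z : W ⟶ Z) :
    vl C (C.comp (C.pull (fst X Y) e) Δ) x z = C.pull x e * C.pull z (C.act Δ 1) := by
  rw [vl_comp, vl_fst, C.pull_comp, C.proj_left, pull_act, map_one, mul_one]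

lemma comp_pull_snd (e : C.A Y) (Δ : C.A (Y.prod Z)) (x : W ⟶ X) (z : W ⟶ Z) :
    vl C (C.comp (C.pull (snd X Y) e) Δ) x z = C.pull z (C.act Δ e) := by
  rw [vl_comp, vl_snd, ch_comm C, pull_act]

lemma ext_vl {p q : C.A (X.prod Y)} (h : ∀ (W : 𝒱.Obj) (x : W ⟶ X) (y : W ⟶ Y),
    vl C p x y = vl C q x y) : p = q := by
  have := h _ (fst X Y) (snd X Y)
  rwa [vl_univ, vl_univ] at this

lemma push_one_snd (h : 0 < X.dim) : C.push (snd X Y) (1 : C.A (X.prod Y)) = 0 := by
  have h1 := C.push_mem (snd X Y) (C.one_mem (X.prod Y))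
  have h2 : (0 : ℤ) + 1 * ((Y.dim : ℤ) - ((X.prod Y).dim : ℤ)) < 0 := by
    rw [dim_prod]
    push_cast
    have : (0 : ℤ) < X.dim := by exact_mod_cast h
    linarith
  rw [C.gr_neg _ _ h2] at h1
  exact h1

lemma act_mid_one {e : C.A X} (hd : X.dim = 1) (he1 : HasDegree C e 1) :
    C.act (midProj C e) 1 = 0 := by
  have h1 : C.act (C.pull (fst X X) e) 1 = 1 := by
    rw [TheoryData.act_apply, map_one, mul_one, (he1 X).1, one_smul]
  have h2 : C.act (C.pull (snd X X) e) 1 = 0 := by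
    rw [TheoryData.act_apply, map_one, C.proj_left, push_one_snd (by omega), mul_zero]
  rw [midProj, C.act_sub, C.act_sub, act_dg, h1, h2, sub_self, sub_zero]

lemma act_mid_e {e : C.A X} (hd : X.dim = 1) (he : C.Deg 1 e) (he1 : HasDegree C e 1) :
    C.act (midProj C e) e = 0 := by
  have h0 : e * e = 0 := hC.gr_top _ (1 + 1) _ (C.mul_mem he he) (by rw [hd]; norm_num)
  have h1 : C.act (C.pull (fst X X) e) e = 0 := by
    rw [TheoryData.act_apply, ← map_mul, h0, map_zero, map_zero]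
  have h2 : C.act (C.pull (snd X X) e) e = e := by
    rw [TheoryData.act_apply, C.proj_left, (he1 X).1, one_smul, mul_one]
  rw [midProj, C.act_sub, C.act_sub, act_dg, h1, h2, sub_zero, sub_self]

lemma mid_idem {e : C.A X} (hd : X.dim = 1) (he : C.Deg 1 e) (he1 : HasDegree C e 1) :
    C.comp (midProj C e) (midProj C e) = midProj C e := by
  have h1 : C.comp (C.pull (fst X X) e) (midProj C e) = 0 := by
    apply ext_vl
    intro W x y
    rw [comp_pull_fst, act_mid_one hd he1, map_zero, mul_zero, vl, map_zero]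
  have h2 : C.comp (C.pull (snd X X) e) (midProj C e) = 0 := by
    apply ext_vl
    intro W x y
    rw [comp_pull_snd, act_mid_e hd he he1, map_zero, vl, map_zero]
  conv_lhs => rw [midProj]
  rw [sub_comp, sub_comp]
  change C.comp (dg C X) (midProj C e) - C.comp (C.pull (fst X X) e) (midProj C e) -
    C.comp (C.pull (snd X X) e) (midProj C e) = _
  rw [h1, h2, dg_comp, sub_zero, sub_zero]

lemma mid_symm (e : C.A X) : tp C (midProj C e) = midProj C e := by
  apply ext_vl
  intro W x y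
  rw [vl_tp]
  have h1 : vl C (dg C X) y x = vl C (dg C X) x y := by
    rw [← vl_tp (dg C X)]
    congr 1
    have h2 : tp C (dg C X) = C.push (sw X X) (C.push (Obj.lift (𝟙 X) (𝟙 X)) 1) := by
      rw [tp, pull_iso C (sw X X) (sw X X) sw_sw sw_sw]
      rfl
    rw [h2, ← C.push_comp]
    have h3 : Obj.lift (𝟙 X) (𝟙 X) ≫ sw X X = Obj.lift (𝟙 X) (𝟙 X) := by
      apply prod_ext <;> simp [sw]
    rw [h3]
    rfl
  rw [midProj, vl_sub, vl_sub, vl_sub, vl_sub, vl_fst, vl_snd, vl_fst, vl_snd, h1]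
  ring

lemma mid_inv {e : C.A X} {g : X ⟶ X} (hg : g ≫ g = 𝟙 X) (he : C.pull g e = e) (x y : W ⟶ X) :
    vl C (midProj C e) (x ≫ g) (y ≫ g) = vl C (midProj C e) x y := by
  have h0 : prodMap g g ≫ prodMap g g = 𝟙 (X.prod X) := by
    apply prod_ext
    · rw [Category.assoc, prodMap_fst, ← Category.assoc, prodMap_fst, Category.assoc, hg]
      simp
    · rw [Category.assoc, prodMap_snd, ← Category.assoc, prodMap_snd, Category.assoc, hg]
      simp
  have h1 : C.pull (prodMap g g) (dg C X) = dg C X := by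
    rw [pull_iso C _ _ h0 h0]
    change C.push (prodMap g g) (C.push (Obj.lift (𝟙 X) (𝟙 X)) 1) = C.push (Obj.lift (𝟙 X) (𝟙 X)) 1
    have h2 : Obj.lift (𝟙 X) (𝟙 X) ≫ prodMap g g = g ≫ Obj.lift (𝟙 X) (𝟙 X) := by
      apply prod_ext <;> simp [comp_lift]
    have h3 : C.push g (1 : C.A X) = 1 := by
      rw [← pull_iso C g g hg hg, map_one]
    rw [← C.push_comp, h2, C.push_comp, h3]
  rw [midProj, vl_sub, vl_sub, vl_sub, vl_sub, vl_fst, vl_snd, vl_fst, vl_snd, C.pull_comp,
    C.pull_comp, he, ← vl_pull, h1]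

/-- The projector acts as the identity on classes with vanishing push-forward. -/
lemma mid_fix {e : C.A X} (hd : X.dim = 1) (hd' : Y.dim = 1) (he : C.Deg 1 e)
    {β : C.A (X.prod Y)} (hβ : C.Deg 2 β) (h0 : C.push (snd X Y) β = 0) :
    C.comp (midProj C e) β = β := by
  have h1 : C.comp (C.pull (fst X X) e) β = 0 := by
    apply ext_vl
    intro W x y
    rw [comp_pull_fst, TheoryData.act_apply, map_one, mul_one, h0, map_zero, mul_zero, vl,
      map_zero]
  have h2 : C.comp (C.pull (snd X X) e) β = 0 := by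
    apply ext_vl
    intro W x y
    have h3 : β * C.pull (fst X Y) e = 0 := by
      apply hC.gr_top _ (2 + 1) _ (C.mul_mem hβ (C.pull_mem _ he))
      rw [dim_prod, hd, hd']
      norm_num
    rw [comp_pull_snd, TheoryData.act_apply, h3, map_zero, map_zero, vl, map_zero]
  rw [midProj, sub_comp, sub_comp]
  change C.comp (dg C X) β - C.comp (C.pull (fst X X) e) β - C.comp (C.pull (snd X X) e) β = _
  rw [h1, h2, dg_comp, sub_zero, sub_zero]

section group

variable {r : ℕ} {a : Two r → (X ⟶ X)} {e : C.A X}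

omit hC in
lemma act_sq (h0 : a 0 = 𝟙 X) (h1 : ∀ g h, a (g + h) = a g ≫ a h) (g : Two r) :
    a g ≫ a g = 𝟙 X := by rw [← h1, two_self, h0]

/-- The correspondences attached to the elements of the group. -/
noncomputable def gP (a : Two r → (X ⟶ X)) (e : C.A X) (g : Two r) : C.A (X.prod X) :=
  C.pull (prodMap (𝟙 X) (a g)) (midProj C e)

lemma vl_gP (g : Two r) (x y : W ⟶ X) :
    vl C (gP a e g) x y = vl C (midProj C e) x (y ≫ a g) := by
  rw [gP, vl_pull, Category.comp_id]

lemma vl_gP' (h0 : a 0 = 𝟙 X) (h1 : ∀ g h, a (g + h) = a g ≫ a h)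
    (he : ∀ g, C.pull (a g) e = e) (g : Two r) (x y : W ⟶ X) :
    vl C (gP a e g) x y = vl C (midProj C e) (x ≫ a g) y := by
  rw [vl_gP, ← mid_inv (act_sq h0 h1 g) (he g), Category.assoc, act_sq h0 h1 g, Category.comp_id]

lemma gP_comp (hd : X.dim = 1) (hed : C.Deg 1 e) (he1 : HasDegree C e 1) (h0 : a 0 = 𝟙 X)
    (h1 : ∀ g h, a (g + h) = a g ≫ a h) (he : ∀ g, C.pull (a g) e = e) (g h : Two r) :
    C.comp (gP a e g) (gP a e h) = gP a e (g + h) := by
  apply ext_vl
  intro W x y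
  rw [vl_comp, vl_gP' h0 h1 he, vl_gP, Category.assoc, Category.assoc, ← vl_comp,
    mid_idem hd hed he1, ← vl_gP' h0 h1 he, vl_gP, vl_gP, Category.assoc, ← h1, add_comm]

lemma gP_symm (h0 : a 0 = 𝟙 X) (h1 : ∀ g h, a (g + h) = a g ≫ a h)
    (he : ∀ g, C.pull (a g) e = e) (g : Two r) : tp C (gP a e g) = gP a e g := by
  apply ext_vl
  intro W x y
  rw [vl_tp, vl_gP, vl_symm (mid_symm e), vl_gP' h0 h1 he]

lemma charProj_eq (φ : Two r) :
    charProj C a e φ = ((2 : ℚ) ^ r)⁻¹ • ∑ g : Two r, chi φ g • gP a e g := rfl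

lemma charProj_idem (hd : X.dim = 1) (hed : C.Deg 1 e) (he1 : HasDegree C e 1) (h0 : a 0 = 𝟙 X)
    (h1 : ∀ g h, a (g + h) = a g ≫ a h) (he : ∀ g, C.pull (a g) e = e) (φ : Two r) :
    C.comp (charProj C a e φ) (charProj C a e φ) = charProj C a e φ := by
  have h2 : C.comp (∑ g : Two r, chi φ g • gP a e g) (∑ h : Two r, chi φ h • gP a e h) =
      (2 : ℚ) ^ r • ∑ g : Two r, chi φ g • gP a e g := by
    rw [sum_comp]
    have h3 : ∀ g : Two r, C.comp (chi φ g • gP a e g) (∑ h : Two r, chi φ h • gP a e h) =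
        ∑ h : Two r, chi φ h • gP a e h := by
      intro g
      rw [comp_sum, ← Equiv.sum_comp (Equiv.addLeft g) (fun h => chi φ h • gP a e h)]
      refine Finset.sum_congr rfl fun h _ => ?_
      rw [smul_comp1, comp_smul1, gP_comp hd hed he1 h0 h1 he, smul_smul, chi_mul,
        Equiv.coe_addLeft]
    rw [Finset.sum_congr rfl fun g _ => h3 g, Finset.sum_const, Finset.card_univ,
      ← Nat.cast_smul_eq_nsmul ℚ]
    congr 1
    simp [ZMod.card]
  rw [charProj_eq, smul_comp1, comp_smul1, h2, smul_smul, smul_smul]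
  congr 1
  field_simp

lemma charProj_symm (h0 : a 0 = 𝟙 X) (h1 : ∀ g h, a (g + h) = a g ≫ a h)
    (he : ∀ g, C.pull (a g) e = e) (φ : Two r) :
    tp C (charProj C a e φ) = charProj C a e φ := by
  rw [charProj_eq, tp, map_smul, map_sum]
  congr 1
  refine Finset.sum_congr rfl fun g _ => ?_
  rw [map_smul]
  congr 1
  exact gP_symm h0 h1 he g

lemma mid_mem (hd : X.dim = 1) (hed : C.Deg 1 e) : midProj C e ∈ C.gr (X.prod X) X.dim := by
  rw [hd]
  have h1 : dg C X ∈ C.gr (X.prod X) X.dim := by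
    have h2 := C.push_mem (Obj.lift (𝟙 X) (𝟙 X)) (C.one_mem X)
    have e1 : (0 : ℤ) + 1 * (((X.prod X).dim : ℤ) - (X.dim : ℤ)) = X.dim := by
      rw [dim_prod]; push_cast; ring
    rw [e1] at h2
    exact h2
  rw [hd] at h1
  exact Submodule.sub_mem _ (Submodule.sub_mem _ h1 (C.pull_mem _ hed)) (C.pull_mem _ hed)

lemma charProj_mem (hd : X.dim = 1) (hed : C.Deg 1 e) (φ : Two r) :
    charProj C a e φ ∈ C.gr (X.prod X) X.dim :=
  Submodule.smul_mem _ _ (Submodule.sum_mem _ fun _ _ => Submodule.smul_mem _ _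
    (C.pull_mem _ (mid_mem hd hed)))

lemma charProj_sum (h0 : a 0 = 𝟙 X) : ∑ φ : Two r, charProj C a e φ = midProj C e := by
  simp only [charProj_eq]
  rw [← Finset.smul_sum, Finset.sum_comm]
  have h1 : ∀ g : Two r, ∑ φ : Two r, chi φ g • gP a e g =
      (if g = 0 then (2 : ℚ) ^ r else 0) • gP a e g := by
    intro g
    rw [← Finset.sum_smul, sum_chi]
  rw [Finset.sum_congr rfl fun g _ => h1 g]
  simp only [ite_smul, zero_smul]
  rw [Finset.sum_ite_eq' Finset.univ (0 : Two r), if_pos (Finset.mem_univ _), smul_smul,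
    inv_mul_cancel₀ (by positivity), one_smul, gP, h0]
  have h2 : prodMap (𝟙 X) (𝟙 X) = 𝟙 (X.prod X) := by
    apply prod_ext <;> simp
  rw [h2, C.pull_id]

end group

/-- The equality of the actions from both sides on invariant classes. -/
lemma charProj_both {r : ℕ} {a : Two r → (X ⟶ X)} {e : C.A X} {a' : Two r → (Y ⟶ Y)}
    {e' : C.A Y} (h0 : a 0 = 𝟙 X) (h1 : ∀ g h, a (g + h) = a g ≫ a h)
    (he : ∀ g, C.pull (a g) e = e) (h0' : a' 0 = 𝟙 Y) (h1' : ∀ g h, a' (g + h) = a' g ≫ a' h)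
    {β : C.A (X.prod Y)} (hfix : C.comp (midProj C e) β = β)
    (hfix' : C.comp β (midProj C e') = β)
    (hinv : ∀ g, C.pull (prodMap (a g) (a' g)) β = β) (φ : Two r) :
    C.comp (charProj C a e φ) β = C.comp β (charProj C a' e' φ) := by
  have h2 : ∀ g, C.comp (gP a e g) β = C.comp β (gP a' e' g) := by
    intro g
    apply ext_vl
    intro W x y
    rw [vl_comp, vl_comp]
    have h3 : vl C (gP a e g) (fst W X ≫ x) (snd W X) =
        vl C (midProj C e) (fst W X ≫ x ≫ a g) (snd W X) := by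
      rw [vl_gP' h0 h1 he, Category.assoc]
    have h4 : vl C (gP a' e' g) (snd W Y) (fst W Y ≫ y) =
        vl C (midProj C e') (snd W Y) (fst W Y ≫ y ≫ a' g) := by
      rw [vl_gP, Category.assoc]
    rw [h3, h4, ← vl_comp, ← vl_comp, hfix, hfix']
    conv_lhs => rw [← hinv g, vl_pull, Category.assoc, act_sq h0 h1, Category.comp_id]
  rw [charProj_eq, charProj_eq, smul_comp1, comp_smul1, sum_comp, comp_sum]
  congr 1
  refine Finset.sum_congr rfl fun g _ => ?_
  rw [smul_comp1, comp_smul1, h2]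

end Pool.Agent.R904.Voi
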