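import Pool.Agent.R904.Voi.Act

/-!
# The alternating sums of products of zero-cycles
-/

open CategoryTheory AlgebraicGeometry

universe u v w

namespace Pool.Agent.R904.Voi

open Pool.Agent.H914 Pool.Agent.H914.VarClass Pool.Agent.H914.VarClass.Obj Pool.Agent.W492.BB
  Pool.Agent.W550.Corr Pool.Agent.TH133 Pool.Agent.TH829.Kim Pool.Agent.Y152.AS

variable {k : Type u} [Field k] {𝒱 : VarClass k}

variable {C : TheoryData.{u, v, 0} 𝒱 ℚ} [hC : IsChowProj C] {X Y Z W V T S : 𝒱.Obj}

include hC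

lemma symPower_eq' {n : ℕ} (p : C.A (X.prod X)) (x y : Fin n → (W ⟶ X)) :
    symPower C p x y = ∑ σ : Equiv.Perm (Fin n), ∏ i, vl C p (x i) (y (σ i)) := by
  rw [symPower]
  refine Finset.sum_congr rfl fun σ _ => ?_
  rw [List.prod_ofFn]
  rfl

lemma graph_deg (f : X ⟶ Y) : C.Deg Y.dim (C.graph f) := by
  have h2 := C.push_mem (Obj.lift (𝟙 X) f) (C.one_mem X)
  have e1 : (0 : ℤ) + 1 * (((X.prod Y).dim : ℤ) - (X.dim : ℤ)) = Y.dim := by
    rw [dim_prod]; push_cast; ring
  rw [e1] at h2
  exact h2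

/-- The Albanese kernel is mapped to the Albanese kernel. -/
lemma albKer_act {b : C.A (X.prod Y)} (hb : C.Deg X.dim b) (hXY : X.dim = Y.dim) {α : C.A X}
    (hα : InAlbKer C α) : InAlbKer C (C.act b α) := by
  refine ⟨?_, fun Z W hW => ?_⟩
  · have h := C.push_mem (snd X Y) (C.mul_mem hb (C.pull_mem (fst X Y) hα.deg))
    have e1 : (X.dim : ℤ) + X.dim + 1 * ((Y.dim : ℤ) - ((X.prod Y).dim : ℤ)) = Y.dim := by
      rw [dim_prod, hXY]; push_cast; ring
    rw [e1] at h
    exact h
  · rw [← C.act_comp]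
    refine hα.act_eq_zero Z _ ?_
    have h := comp_mem C (e := 0) (e' := 1 - Y.dim) (Γ := b) (Δ := W) (by rwa [add_zero])
      (by rw [add_sub_cancel]; exact hW)
    have e1 : (X.dim : ℤ) + (0 + (1 - Y.dim)) = 1 := by rw [hXY]; ring
    rw [e1] at h
    exact h

/-- The action commutes with automorphisms which preserve the correspondence. -/
lemma act_tp_inv {b : C.A (X.prod S)} {g : X ⟶ X} (hg : C.pull (prodMap g (𝟙 S)) b = b)
    (α : C.A S) : C.pull g (C.act (tp C b) α) = C.act (tp C b) α := by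
  rw [pull_act]
  conv_rhs => rw [← C.pull_id (C.act (tp C b) α), pull_act]
  congr 2
  rw [vl_tp, vl_tp, Category.comp_id]
  conv_rhs => rw [← hg, vl_pull, Category.comp_id]

theorem main {r : ℕ} {a : Two r → (X ⟶ X)} {a' : Two r → (Y ⟶ Y)} {γ γ' : Two r → ℕ}
    (hX : IsCurveWithGenera C X a γ) (hY : IsCurveWithGenera C Y a' γ')
    (hS : IsDominatedByQuotient C a a' S) {n : ℕ} (hn : ∑ φ, γ φ * γ' φ < n)
    (α : Fin n → C.A S) (hα : ∀ i, InAlbKer C (α i)) (s : Fin n → (W ⟶ S)) :
    (Matrix.of fun i j => C.pull (s i) (α j)).det = 0 := by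
  classical
  obtain ⟨hd, h0, h1, e, he, he1, hinv, hk⟩ := hX
  obtain ⟨hd', h0', h1', e', he', he1', hinv', hk'⟩ := hY
  obtain ⟨hSd, b, N, hb, hN, hbi, hdom⟩ := hS
  have hdXY : (X.prod Y).dim = 2 := by rw [dim_prod, hd, hd']
  -- the odd projectors
  have hp : ∀ φ, OddSym (charProj C a e φ) (γ φ) := fun φ =>
    ⟨charProj_idem hd he he1 h0 h1 hinv φ, charProj_symm h0 h1 hinv φ, charProj_mem hd he φ,
      by omega, permZero_double fun W x y => by rw [← symPower_eq']; exact hk φ W x y⟩
  have hq : ∀ φ, OddSym (charProj C a' e' φ) (γ' φ) := fun φ =>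
    ⟨charProj_idem hd' he' he1' h0' h1' hinv' φ, charProj_symm h0' h1' hinv' φ,
      charProj_mem hd' he' φ, by omega,
      permZero_double fun W x y => by rw [← symPower_eq']; exact hk' φ W x y⟩
  -- the classes on the product
  let β : Fin n → C.A (X.prod Y) := fun j => C.act (tp C b) (α j)
  have hβK : ∀ j, InAlbKer C (β j) := fun j => by
    refine albKer_act ?_ (by rw [hSd, hdXY]) (hα j)
    rw [hSd]
    exact tp_mem C hb
  have hβd : ∀ j, C.Deg 2 (β j) := fun j => by
    have := (hβK j).deg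
    rw [hdXY] at this
    exact this
  have hsnd : ∀ j, C.push (snd X Y) (β j) = 0 := fun j => by
    rw [← C.act_graph]
    refine (hβK j).act_eq_zero Y _ ?_
    have := graph_deg (C := C) (snd X Y)
    rwa [hd'] at this
  have hfst : ∀ j, C.push (fst X Y) (β j) = 0 := fun j => by
    rw [← C.act_graph]
    refine (hβK j).act_eq_zero X _ ?_
    have := graph_deg (C := C) (fst X Y)
    rwa [hd] at this
  have hfix : ∀ j, C.comp (midProj C e) (β j) = β j := fun j =>
    mid_fix hd hd' he (hβd j) (hsnd j)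
  have hfix' : ∀ j, C.comp (β j) (midProj C e') = β j := fun j => by
    have h2 : C.push (snd Y X) (tp C (β j)) = 0 := by
      rw [tp, pull_iso C (sw Y X) (sw X Y) sw_sw sw_sw, ← C.push_comp]
      have : sw X Y ≫ snd Y X = fst X Y := by simp [sw]
      rw [this, hfst]
    have h3 := mid_fix hd' hd he' (tp_mem C (hβd j)) h2
    have h4 := congrArg (tp C) h3
    rwa [tp_comp C (ch_comm C), tp_tp, mid_symm] at h4
  have hβi : ∀ j g, C.pull (prodMap (a g) (a' g)) (β j) = β j := fun j g =>
    act_tp_inv (hbi g) (α j)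
  -- the determinant of the classes on the product
  have h2 : ∀ (W : 𝒱.Obj) (t : Fin n → (W ⟶ X.prod Y)),
      (Matrix.of fun i j => C.pull (t i) (β j)).det = 0 := fun W t => by
    refine det_types γ γ' hn hp hq (fun j => ?_) (fun j => ?_) (fun φ j => ?_) t
    · have := hβd j
      have e2 : (X.dim : ℤ) + Y.dim = 2 := by rw [hd, hd']; norm_num
      rw [e2]
      exact this
    · rw [charProj_sum h0, hfix]
    · exact charProj_both h0 h1 hinv h0' h1' (hfix j) (hfix' j) (hβi j) φ
  have h3 := det_trans b β h2 s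
  -- division by `N`
  have h4 : (Matrix.of fun i j => C.pull (s i) (C.act b (β j))) =
      N • (Matrix.of fun i j => C.pull (s i) (α j)) := by
    funext i j
    rw [Matrix.smul_apply, Matrix.of_apply, Matrix.of_apply, hdom _ (hα j), map_smul]
  rw [h4, ← algebraMap_smul (C.A W) N, Matrix.det_smul, ← map_pow, ← Algebra.smul_def] at h3
  exact (smul_eq_zero.1 h3).resolve_left (pow_ne_zero _ hN)

end Pool.Agent.R904.Voi
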