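import Pool.Agent.TH131.GHC.Words

/-!
# Elements of group algebras of symmetric groups which act as zero on tensor powers
-/

namespace Pool.Agent.R904.Voi

open Equiv Pool.Agent.TH131.GHC

section

variable {κ Q Γ M : Type*} [Fintype κ] [DecidableEq κ] [DecidableEq Q] [Fintype Γ] [DecidableEq Γ]
  [AddCommGroup M] [Module ℚ M]

lemma anti_perm {A : Finset κ} {G : (κ → κ) → ℚ}
    (hG : ∀ p ∈ A, ∀ p' ∈ A, p ≠ p' → ∀ X : κ → κ, G (fun k => X (swap p p' k)) = -G X)
    (ρ : Perm A) (X : κ → κ) :
    G (fun k => X (Perm.ofSubtype ρ k)) = ((Perm.sign ρ : ℤ) : ℚ) * G X := by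
  induction ρ using Equiv.Perm.swap_induction_on generalizing X with
  | one => simp
  | swap_mul f x y hxy ih =>
    have h1 : (fun k => X (Perm.ofSubtype (swap x y * f) k)) =
        fun k => (fun l => X (swap (x : κ) y l)) (Perm.ofSubtype f k) := by
      funext k
      rw [map_mul, Perm.mul_apply, Perm.ofSubtype_swap_eq]
    rw [h1, ih (fun l => X (swap (x : κ) y l)), hG x x.2 y y.2 (fun h => hxy (Subtype.ext h)), Perm.sign_mul, Perm.sign_swap hxy]
    push_cast
    ring

/-- Let `F` be a combination of permutations preserving the types of the positions which, twisted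
by the sign, acts as zero on the tensor product of the spaces of dimension `h q`. If `z` is a
function on the permutations which is killed by all symmetrizations over more than `h q` positions
of type `q`, then it is killed by `F`. -/
theorem alt_sum (gcl : Γ → Q) (qw : κ → Q) (F : Perm κ → ℚ)
    (hF : ∀ σ, F σ ≠ 0 → ∀ k, qw (σ k) = qw k)
    (hV : ∀ c : κ → Γ, (∀ k, gcl (c k) = qw k) → ∀ Y : Γ → κ → ℚ,
      ∑ σ, F σ * ∏ k, Y (c k) (σ k) = 0)
    (z : Perm κ → M)
    (hz : ∀ (q : Q) (A : Finset κ), A.card = Fintype.card {γ // gcl γ = q} + 1 →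
      (∀ k ∈ A, qw k = q) → ∀ σ : Perm κ, (∀ k, qw (σ k) = qw k) →
      ∑ ρ : Perm A, z (σ * Perm.ofSubtype ρ) = 0) :
    ∑ σ, (((Perm.sign σ : ℤ) : ℚ) * F σ) • z σ = 0 := by
  classical
  let E : ((κ → κ) → ℚ) →ₗ[ℚ] M :=
    { toFun := fun G => ∑ σ : Perm κ, (((Perm.sign σ : ℤ) : ℚ) * G (fun k => σ k)) • z σ
      map_add' := by
        intro G G'
        rw [← Finset.sum_add_distrib]
        refine Finset.sum_congr rfl fun σ _ => ?_
        rw [Pi.add_apply, mul_add, add_smul]
      map_smul' := by
        intro r G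
        rw [RingHom.id_apply, Finset.smul_sum]
        refine Finset.sum_congr rfl fun σ _ => ?_
        rw [Pi.smul_apply, smul_eq_mul, smul_smul]
        congr 1
        ring }
  let G0 : (κ → κ) → ℚ := fun w => ∑ σ : Perm κ, if (fun k => σ k) = w then F σ else 0
  have hG0 : ∀ σ : Perm κ, G0 (fun k => σ k) = F σ := by
    intro σ
    simp only [G0]
    rw [Finset.sum_eq_single σ]
    · rw [if_pos rfl]
    · intro τ _ hτ
      rw [if_neg]
      intro h
      exact hτ (Equiv.ext (congrFun h))
    · intro h
      exact absurd (Finset.mem_univ _) h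
  have hsup : ∀ X, G0 X ≠ 0 → ∃ σ : Perm κ, (fun k => σ k) = X ∧ F σ ≠ 0 := by
    intro X hX
    obtain ⟨σ, -, hσ⟩ := Finset.exists_ne_zero_of_sum_ne_zero hX
    split_ifs at hσ with h1
    · exact ⟨σ, h1, hσ⟩
    · exact absurd rfl hσ
  have hmem := mem_anti_of_van (K := ℚ) qw gcl qw G0 (by
    intro X hX k
    obtain ⟨σ, rfl, hσ⟩ := hsup X hX
    exact hF σ hσ k) (by
    intro c hc Y
    rw [← hV c hc Y]
    simp only [G0]
    have h1 : ∀ X : κ → κ, (∑ σ : Perm κ, if (fun k => σ k) = X then F σ else 0) *
        ∏ k, Y (c k) (X k) = ∑ σ : Perm κ, if (fun k => σ k) = X then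
          F σ * ∏ k, Y (c k) (σ k) else 0 := by
      intro X
      rw [Finset.sum_mul]
      refine Finset.sum_congr rfl fun σ _ => ?_
      split_ifs with h
      · subst h
        rfl
      · rw [zero_mul]
    rw [Finset.sum_congr rfl fun X _ => h1 X, Finset.sum_comm]
    refine Finset.sum_congr rfl fun σ _ => ?_
    rw [Finset.sum_ite_eq]
    simp)
  have hE : ∀ G ∈ Submodule.span ℚ (AntiSet ℚ qw qw fun q => Fintype.card {γ // gcl γ = q}),
      E G = 0 := by
    intro G hG
    induction hG using Submodule.span_induction with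
    | zero => exact map_zero _
    | add x y _ _ hx hy => rw [map_add, hx, hy, add_zero]
    | smul r x _ hx => rw [map_smul, hx, smul_zero]
    | mem G hG =>
      obtain ⟨q, A, hA1, hA2, hA3, hA4⟩ := hG
      have h1 : ∀ ρ : Perm A, E G = ∑ σ : Perm κ, (((Perm.sign σ : ℤ) : ℚ) *
          G (fun k => σ k)) • z (σ * Perm.ofSubtype ρ) := by
        intro ρ
        change ∑ σ : Perm κ, (((Perm.sign σ : ℤ) : ℚ) * G (fun k => σ k)) • z σ = _
        rw [← Equiv.sum_comp (Equiv.mulRight (Perm.ofSubtype ρ))]
        refine Finset.sum_congr rfl fun σ _ => ?_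
        rw [Equiv.coe_mulRight]
        have h2 : (fun k => (σ * Perm.ofSubtype ρ) k) =
            fun k => (fun l => σ l) (Perm.ofSubtype ρ k) := rfl
        rw [h2, anti_perm hA4, Perm.sign_mul, Perm.sign_ofSubtype]
        congr 1
        have h3 : (((Perm.sign ρ : ℤ) : ℚ)) * ((Perm.sign ρ : ℤ) : ℚ) = 1 := by
          rw [← Int.cast_mul, Int.units_coe_mul_self, Int.cast_one]
        push_cast
        linear_combination (((Perm.sign σ : ℤ) : ℚ)) * G (fun k => σ k) * h3
      have h2 : (Fintype.card (Perm A) : ℚ) • E G = 0 := by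
        have h3 : (Fintype.card (Perm A) : ℚ) • E G = ∑ _ρ : Perm A, E G := by
          rw [Finset.sum_const, Finset.card_univ, Nat.cast_smul_eq_nsmul]
        rw [h3, Finset.sum_congr rfl fun ρ _ => h1 ρ, Finset.sum_comm]
        refine Finset.sum_eq_zero fun σ _ => ?_
        rw [← Finset.smul_sum]
        by_cases h4 : G (fun k => σ k) = 0
        · rw [h4, mul_zero, zero_smul]
        · rw [hz q A hA1 hA2 σ (hA3 _ h4), smul_zero]
      exact (smul_eq_zero.1 h2).resolve_left (Nat.cast_ne_zero.2 Fintype.card_ne_zero)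
  have h1 := hE _ hmem
  change ∑ σ : Perm κ, (((Perm.sign σ : ℤ) : ℚ) * G0 (fun k => σ k)) • z σ = 0 at h1
  rw [← h1]
  exact Finset.sum_congr rfl fun σ _ => by rw [hG0]

end

section two

variable {M : Type*} [AddCommGroup M] [Module ℚ M] {n : ℕ}

/-- A finite set is equivalent to its image. -/
noncomputable def mapE {α β : Type*} (s : Finset α) (f : α ↪ β) : s ≃ (s.map f : Finset β) :=
  Equiv.ofBijective (fun k => ⟨f k, Finset.mem_map_of_mem f k.2⟩) (by
    constructor
    · intro x y h
      exact Subtype.ext (f.injective (congrArg Subtype.val h))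
    · rintro ⟨y, hy⟩
      obtain ⟨k, hk, rfl⟩ := Finset.mem_map.1 hy
      exact ⟨⟨k, hk⟩, rfl⟩)

lemma card_left (a b : ℕ) : Fintype.card {γ : Fin a ⊕ Fin b // γ.isLeft = true} = a := by
  have h : Function.Bijective (fun i : Fin a =>
      (⟨Sum.inl i, rfl⟩ : {γ : Fin a ⊕ Fin b // γ.isLeft = true})) := by
    constructor
    · intro i j h
      exact Sum.inl_injective (congrArg Subtype.val h)
    · rintro ⟨γ | γ, hγ⟩
      · exact ⟨γ, rfl⟩
      · simp at hγ
  rw [← Fintype.card_of_bijective h, Fintype.card_fin]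

lemma card_right (a b : ℕ) : Fintype.card {γ : Fin a ⊕ Fin b // γ.isLeft = false} = b := by
  have h : Function.Bijective (fun i : Fin b =>
      (⟨Sum.inr i, rfl⟩ : {γ : Fin a ⊕ Fin b // γ.isLeft = false})) := by
    constructor
    · intro i j h
      exact Sum.inr_injective (congrArg Subtype.val h)
    · rintro ⟨γ | γ, hγ⟩
      · simp at hγ
      · exact ⟨γ, rfl⟩
  rw [← Fintype.card_of_bijective h, Fintype.card_fin]

lemma ofSub_map {α β : Type*} [DecidableEq α] [DecidableEq β] (s : Finset α) (f : α ↪ β)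
    (ρ : Perm s) (k : α) : Perm.ofSubtype ((mapE s f).permCongr ρ) (f k) =
      f (Perm.ofSubtype ρ k) := by
  by_cases hk : k ∈ s
  · have hk' : f k ∈ s.map f := Finset.mem_map_of_mem f hk
    rw [Perm.ofSubtype_apply_of_mem _ hk, Perm.ofSubtype_apply_of_mem _ hk',
      Equiv.permCongr_apply]
    have h1 : (mapE s f).symm ⟨f k, hk'⟩ = ⟨k, hk⟩ := by
      rw [Equiv.symm_apply_eq]
      rfl
    rw [h1]
    rfl
  · have hk' : f k ∉ s.map f := by
      rw [Finset.mem_map']
      exact hk
    rw [Perm.ofSubtype_apply_of_not_mem _ hk, Perm.ofSubtype_apply_of_not_mem _ hk']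

lemma ofSub_map' {α β : Type*} [DecidableEq α] [DecidableEq β] (s : Finset α) (f : α ↪ β)
    (ρ : Perm s) (y : β) (hy : ∀ k, f k ≠ y) :
    Perm.ofSubtype ((mapE s f).permCongr ρ) y = y := by
  apply Perm.ofSubtype_apply_of_not_mem
  intro h
  obtain ⟨k, -, hk⟩ := Finset.mem_map.1 h
  exact hy k hk

/-- If the symmetrizations of `z σ τ` over more than `a` positions in `σ`, and over more than `b`
positions in `τ` are zero, and `n > a b`, then `∑ sign(σ) z σ σ = 0`. -/
theorem alt_two {a b : ℕ} (hab : a * b < n) (z : Perm (Fin n) → Perm (Fin n) → M)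
    (h1 : ∀ A : Finset (Fin n), A.card = a + 1 → ∀ σ τ : Perm (Fin n),
      ∑ ρ : Perm A, z (σ * Perm.ofSubtype ρ) τ = 0)
    (h2 : ∀ A : Finset (Fin n), A.card = b + 1 → ∀ σ τ : Perm (Fin n),
      ∑ ρ : Perm A, z σ (τ * Perm.ofSubtype ρ) = 0) :
    ∑ σ : Perm (Fin n), ((Perm.sign σ : ℤ) : ℚ) • z σ σ = 0 := by
  classical
  let sc : Perm (Fin n) × Perm (Fin n) → Perm (Fin n ⊕ Fin n) := fun p => Perm.sumCongr p.1 p.2
  have hsc : Function.Injective sc := Perm.sumCongrHom_injective
  let F : Perm (Fin n ⊕ Fin n) → ℚ := fun π =>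
    ∑ σ : Perm (Fin n), if sc (σ, σ) = π then ((Perm.sign σ : ℤ) : ℚ) else 0
  let z' : Perm (Fin n ⊕ Fin n) → M := fun π =>
    ∑ p : Perm (Fin n) × Perm (Fin n), if sc p = π then z p.1 p.2 else 0
  have hz' : ∀ p, z' (sc p) = z p.1 p.2 := by
    intro p
    simp only [z']
    rw [Finset.sum_eq_single p]
    · rw [if_pos rfl]
    · intro q _ hq
      rw [if_neg fun h => hq (hsc h)]
    · intro h
      exact absurd (Finset.mem_univ _) h
  have key := alt_sum (κ := Fin n ⊕ Fin n) (Q := Bool) (Γ := Fin a ⊕ Fin b) (M := M)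
    Sum.isLeft Sum.isLeft F ?_ ?_ z' ?_
  · -- the conclusion
    have e1 : ∑ π : Perm (Fin n ⊕ Fin n), (((Perm.sign π : ℤ) : ℚ) * F π) • z' π =
        ∑ σ : Perm (Fin n), ((Perm.sign σ : ℤ) : ℚ) • z σ σ := by
      have e2 : ∀ π : Perm (Fin n ⊕ Fin n), (((Perm.sign π : ℤ) : ℚ) * F π) • z' π =
          ∑ σ : Perm (Fin n), if sc (σ, σ) = π then ((Perm.sign σ : ℤ) : ℚ) • z σ σ else 0 := by
        intro π
        simp only [F]
        rw [Finset.mul_sum, Finset.sum_smul]
        refine Finset.sum_congr rfl fun σ _ => ?_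
        split_ifs with h
        · subst h
          rw [hz']
          have e3 : ((Perm.sign (sc (σ, σ)) : ℤ) : ℚ) = 1 := by
            simp only [sc]
            rw [Perm.sign_sumCongr, ← Int.cast_one]
            congr 1
            exact Int.units_coe_mul_self _
          rw [e3, one_mul]
        · rw [mul_zero, zero_smul]
      rw [Finset.sum_congr rfl fun π _ => e2 π, Finset.sum_comm]
      refine Finset.sum_congr rfl fun σ _ => ?_
      rw [Finset.sum_ite_eq]
      simp
    rw [← e1]
    exact key
  · intro π hπ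
    obtain ⟨σ, -, hσ⟩ := Finset.exists_ne_zero_of_sum_ne_zero hπ
    split_ifs at hσ with h
    · subst h
      intro k
      rcases k with k | k <;> simp [sc]
    · exact absurd rfl hσ
  · intro c hc Y
    have e1 : ∑ π : Perm (Fin n ⊕ Fin n), F π * ∏ k, Y (c k) (π k) =
        (Matrix.of fun i j : Fin n => Y (c (Sum.inl j)) (Sum.inl i) *
          Y (c (Sum.inr j)) (Sum.inr i)).det := by
      rw [Matrix.det_apply]
      have e2 : ∀ π : Perm (Fin n ⊕ Fin n), F π * ∏ k, Y (c k) (π k) =
          ∑ σ : Perm (Fin n), if sc (σ, σ) = π then ((Perm.sign σ : ℤ) : ℚ) *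
            ∏ k, Y (c k) (sc (σ, σ) k) else 0 := by
        intro π
        simp only [F]
        rw [Finset.sum_mul]
        refine Finset.sum_congr rfl fun σ _ => ?_
        split_ifs with h
        · subst h
          rfl
        · rw [zero_mul]
      rw [Finset.sum_congr rfl fun π _ => e2 π, Finset.sum_comm]
      refine Finset.sum_congr rfl fun σ _ => ?_
      rw [Finset.sum_ite_eq, if_pos (Finset.mem_univ _), Fintype.prod_sum_type,
        ← Finset.prod_mul_distrib, Units.smul_def, zsmul_eq_mul]
      rfl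
    rw [e1]
    -- two equal columns
    have hcard : Fintype.card (Fin a × Fin b) < Fintype.card (Fin n) := by
      simpa using hab
    have hl : ∀ j : Fin n, ∃ i : Fin a, c (Sum.inl j) = Sum.inl i := by
      intro j
      have h := hc (Sum.inl j)
      rcases hh : c (Sum.inl j) with i | i
      · exact ⟨i, rfl⟩
      · rw [hh] at h
        simp at h
    have hr : ∀ j : Fin n, ∃ i : Fin b, c (Sum.inr j) = Sum.inr i := by
      intro j
      have h := hc (Sum.inr j)
      rcases hh : c (Sum.inr j) with i | i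
      · rw [hh] at h
        simp at h
      · exact ⟨i, rfl⟩
    choose fl hfl using hl
    choose fr hfr using hr
    obtain ⟨j, j', hne, heq⟩ := Fintype.exists_ne_map_eq_of_card_lt (fun j => (fl j, fr j)) hcard
    refine Matrix.det_zero_of_column_eq hne fun i => ?_
    have h3 : fl j = fl j' := congrArg Prod.fst heq
    have h4 : fr j = fr j' := congrArg Prod.snd heq
    simp only [Matrix.of_apply, hfl, hfr, h3, h4]
  · intro q A hA hAq π hπ
    -- `π` is a pair
    obtain ⟨σ, τ, rfl⟩ : ∃ σ τ, sc (σ, τ) = π := by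
      have h3 : π ∈ Set.range (Perm.sumCongrHom (Fin n) (Fin n)) := by
        have h4 : Set.MapsTo π (Set.range Sum.inl) (Set.range (Sum.inl : Fin n → Fin n ⊕ Fin n)) := by
          rintro _ ⟨k, rfl⟩
          have h5 := hπ (Sum.inl k)
          rcases hh : π (Sum.inl k) with i | i
          · exact ⟨i, rfl⟩
          · rw [hh] at h5
            simp at h5
        exact Perm.mem_sumCongrHom_range_of_perm_mapsTo_inl h4
      obtain ⟨p, hp⟩ := h3
      exact ⟨p.1, p.2, hp⟩
    cases q with
    | true =>
      have hA' : A = (Finset.univ.filter fun k => Sum.inl k ∈ A).map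
          (Function.Embedding.inl : Fin n ↪ Fin n ⊕ Fin n) := by
        ext k
        rcases k with k | k
        · simp
        · have : Sum.inr k ∉ A := fun h => by
            have := hAq _ h
            simp at this
          simp [this]
      generalize (Finset.univ.filter fun k => Sum.inl k ∈ A) = B at hA'
      subst hA'
      have hB : B.card = a + 1 := by
        rw [Finset.card_map] at hA
        rw [hA, card_left]
      rw [← Equiv.sum_comp (mapE B Function.Embedding.inl).permCongr, ← h1 B hB σ τ]
      refine Finset.sum_congr rfl fun ρ _ => ?_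
      have h3 : sc (σ, τ) * Perm.ofSubtype ((mapE B
          (Function.Embedding.inl : Fin n ↪ Fin n ⊕ Fin n)).permCongr ρ) =
          sc (σ * Perm.ofSubtype ρ, τ) := by
        ext k
        rcases k with k | k
        · rw [Perm.mul_apply]
          have := ofSub_map B (Function.Embedding.inl : Fin n ↪ Fin n ⊕ Fin n) ρ k
          rw [Function.Embedding.inl_apply] at this
          rw [this]
          rfl
        · rw [Perm.mul_apply, ofSub_map' B _ ρ (Sum.inr k) (fun l h => by simp at h)]
          rfl
      rw [h3, hz']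
    | false =>
      have hA' : A = (Finset.univ.filter fun k => Sum.inr k ∈ A).map
          (Function.Embedding.inr : Fin n ↪ Fin n ⊕ Fin n) := by
        ext k
        rcases k with k | k
        · have : Sum.inl k ∉ A := fun h => by
            have := hAq _ h
            simp at this
          simp [this]
        · simp
      generalize (Finset.univ.filter fun k => Sum.inr k ∈ A) = B at hA'
      subst hA'
      have hB : B.card = b + 1 := by
        rw [Finset.card_map] at hA
        rw [hA, card_right]
      rw [← Equiv.sum_comp (mapE B Function.Embedding.inr).permCongr, ← h2 B hB σ τ]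
      refine Finset.sum_congr rfl fun ρ _ => ?_
      have h3 : sc (σ, τ) * Perm.ofSubtype ((mapE B
          (Function.Embedding.inr : Fin n ↪ Fin n ⊕ Fin n)).permCongr ρ) =
          sc (σ, τ * Perm.ofSubtype ρ) := by
        ext k
        rcases k with k | k
        · rw [Perm.mul_apply, ofSub_map' B _ ρ (Sum.inl k) (fun l h => by simp at h)]
          rfl
        · rw [Perm.mul_apply]
          have := ofSub_map B (Function.Embedding.inr : Fin n ↪ Fin n ⊕ Fin n) ρ k
          rw [Function.Embedding.inr_apply] at this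
          rw [this]
          rfl
      rw [h3, hz']

end two

end Pool.Agent.R904.Voi
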