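import Pool.Agent.R904.Voi.Rel
import Pool.Agent.R904.Voi.Alt

/-!
# Symmetrizations of general families of zero-cycles
-/

open CategoryTheory AlgebraicGeometry

universe u v w

namespace Pool.Agent.R904.Voi

open Pool.Agent.H914 Pool.Agent.H914.VarClass Pool.Agent.H914.VarClass.Obj Pool.Agent.W492.BB
  Pool.Agent.W550.Corr Pool.Agent.TH133 Pool.Agent.TH829.Kim

variable {k : Type u} [Field k] {𝒱 : VarClass k}

variable {C : TheoryData.{u, v, 0} 𝒱 ℚ} [hC : IsChowProj C] {X Y Z W V T B : 𝒱.Obj}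

variable {κ : Type} [Fintype κ] [DecidableEq κ]

/-- A natural family of classes depending on points of `X` indexed by `κ`, fixed by `p` in the
`k`-th variable for `k` in `A`, and of maximal codimension in these variables. -/
structure IsTop (C : TheoryData.{u, v, 0} 𝒱 ℚ) (p : C.A (X.prod X)) (A : Finset κ)
    (z : ∀ W : 𝒱.Obj, (W ⟶ B) → (κ → (W ⟶ X)) → C.A W) : Prop where
  nat : ∀ {V W : 𝒱.Obj} (g : V ⟶ W) (b : W ⟶ B) (x : κ → (W ⟶ X)),
    C.pull g (z W b x) = z V (g ≫ b) (fun l => g ≫ x l)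
  fix : ∀ (W : 𝒱.Obj) (b : W ⟶ B) (x : κ → (W ⟶ X)), ∀ l ∈ A, z W b x =
    C.push (fst W X) (vl C p (fst W X ≫ x l) (snd W X) *
      z (W.prod X) (fst W X ≫ b) (Function.update (fun i => fst W X ≫ x i) l (snd W X)))
  top : ∀ (W : 𝒱.Obj) (b : W ⟶ B) (x : κ → (W ⟶ X)), ∀ l ∈ A, ∀ l' ∈ A, l ≠ l' →
    vl C p (x l) (x l') * z W b x = 0

include hC

/-- Integration over several of the variables. -/
lemma exists_int {p : C.A (X.prod X)} {A : Finset κ}
    {z : ∀ W : 𝒱.Obj, (W ⟶ B) → (κ → (W ⟶ X)) → C.A W} (hz : IsTop C p A z) (W : 𝒱.Obj) (m : ℕ) :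
    ∃ (P : 𝒱.Obj) (f : P ⟶ W) (t : Fin m → (P ⟶ X)), ∀ (b : W ⟶ B) (x : κ → (W ⟶ X))
      (i : Fin m → κ) (_ : Function.Injective i) (_ : ∀ j, i j ∈ A) (y : Fin m → (W ⟶ X)),
      z W b (Function.extend i y x) = C.push f ((∏ j, vl C p (f ≫ y j) (t j)) *
        z P (f ≫ b) (Function.extend i t (fun l => f ≫ x l))) := by
  induction m with
  | zero =>
    refine ⟨W, 𝟙 W, fun j => j.elim0, fun b x i _ _ y => ?_⟩
    have h1 : Function.extend i y x = x := by
      funext l
      exact Function.extend_apply' _ _ _ (by rintro ⟨j, _⟩; exact j.elim0)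
    have h2 : Function.extend i (fun j : Fin 0 => (j.elim0 : W ⟶ X)) (fun l => 𝟙 W ≫ x l) = x := by
      funext l
      rw [Function.extend_apply' _ _ _ (by rintro ⟨j, _⟩; exact j.elim0), Category.id_comp]
    rw [h1, h2]
    simp [C.push_id]
  | succ m ih =>
    obtain ⟨P, f, t, hP⟩ := ih
    refine ⟨P.prod X, fst P X ≫ f, Fin.cons (snd P X) (fun j => fst P X ≫ t j),
      fun b x i hi hA y => ?_⟩
    have hi' : Function.Injective fun j : Fin m => i j.succ :=
      fun a b h => Fin.succ_injective _ (hi h)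
    have h0 : ∀ j : Fin m, i j.succ ≠ i 0 := fun j h => Fin.succ_ne_zero _ (hi h)
    -- first replace the variables `i 1, …`
    have e1 : Function.extend i y x =
        Function.extend (fun j : Fin m => i j.succ) (fun j => y j.succ)
          (Function.update x (i 0) (y 0)) := by
      funext l
      by_cases h1 : ∃ j : Fin m, i j.succ = l
      · obtain ⟨j, rfl⟩ := h1
        rw [hi.extend_apply, hi'.extend_apply (fun j => y j.succ)
          (Function.update x (i 0) (y 0)) j]
      · rw [Function.extend_apply' _ _ l h1]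
        by_cases h2 : l = i 0
        · subst h2
          rw [hi.extend_apply, Function.update_self]
        · rw [Function.update_of_ne h2, Function.extend_apply']
          rintro ⟨j, hj⟩
          rcases Fin.eq_zero_or_eq_succ j with h3 | ⟨j', h3⟩
          · exact h2 (by rw [← hj, h3])
          · exact h1 ⟨j', by rw [← h3]; exact hj⟩
    rw [e1, hP b _ _ hi' (fun j => hA _)]
    rw [hz.fix P (f ≫ b) _ (i 0) (hA 0)]
    have e2 : Function.extend (fun j : Fin m => i j.succ) t
        (fun l => f ≫ Function.update x (i 0) (y 0) l) (i 0) = f ≫ y 0 := by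
      rw [Function.extend_apply' _ _ _ (by rintro ⟨j, hj⟩; exact h0 j hj), Function.update_self]
    have e3 : Function.update (fun l => fst P X ≫ Function.extend (fun j : Fin m => i j.succ) t
        (fun l => f ≫ Function.update x (i 0) (y 0) l) l) (i 0) (snd P X) =
        Function.extend i (Fin.cons (snd P X) (fun j => fst P X ≫ t j) :
          Fin (m + 1) → (P.prod X ⟶ X)) (fun l => (fst P X ≫ f) ≫ x l) := by
      funext l
      by_cases h2 : l = i 0
      · subst h2
        rw [hi.extend_apply, Function.update_self, Fin.cons_zero]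
      · rw [Function.update_of_ne h2]
        by_cases h1 : ∃ j : Fin m, i j.succ = l
        · obtain ⟨j, rfl⟩ := h1
          rw [hi.extend_apply, hi'.extend_apply t _ j, Fin.cons_succ]
        · rw [Function.extend_apply' _ _ l h1, Function.extend_apply', Function.update_of_ne h2,
            Category.assoc]
          rintro ⟨j, hj⟩
          rcases Fin.eq_zero_or_eq_succ j with h3 | ⟨j', h3⟩
          · exact h2 (by rw [← hj, h3])
          · exact h1 ⟨j', by rw [← h3]; exact hj⟩
    rw [e2, e3, ← C.proj_left, map_prod, Fin.prod_univ_succ, Fin.cons_zero, C.push_comp,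
      Category.assoc, Category.assoc]
    congr 2
    have e4 : ∀ j : Fin m, C.pull (fst P X) (vl C p (f ≫ y j.succ) (t j)) =
        vl C p (fst P X ≫ f ≫ y j.succ)
          ((Fin.cons (snd P X) (fun j => fst P X ≫ t j) : Fin (m + 1) → (P.prod X ⟶ X)) j.succ) := by
      intro j
      rw [pull_vl, Fin.cons_succ]
    rw [Finset.prod_congr rfl fun j _ => e4 j]
    simp only [Category.assoc]
    ring

/-- The symmetrization over more positions than half of the rank is zero. -/
theorem relG {m : ℕ} {p : C.A (X.prod X)} (hp : C.comp p p = p) (hs : tp C p = p)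
    (h : PermZero C p (Fin m ⊕ Fin m)) {A : Finset κ} (hA : A.card = m)
    {z : ∀ W : 𝒱.Obj, (W ⟶ B) → (κ → (W ⟶ X)) → C.A W} (hz : IsTop C p A z)
    (W : 𝒱.Obj) (b : W ⟶ B) (x : κ → (W ⟶ X)) :
    ∑ ρ : Equiv.Perm A, z W b (fun l => x (Equiv.Perm.ofSubtype ρ l)) = 0 := by
  classical
  obtain ⟨P, f, t, hP⟩ := exists_int hz W m
  let e : Fin m ≃ A := (A.equivFinOfCardEq hA).symm
  let i : Fin m → κ := fun j => e j
  have hi : Function.Injective i := fun a b hab => e.injective (Subtype.ext hab)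
  have hiA : ∀ j, i j ∈ A := fun j => (e j).2
  have hx : ∀ ρ : Equiv.Perm (Fin m), (fun l => x (Equiv.Perm.ofSubtype (e.permCongr ρ) l)) =
      Function.extend i (fun j => x (i (ρ j))) x := by
    intro ρ
    funext l
    by_cases hl : l ∈ A
    · obtain ⟨j, hj⟩ : ∃ j, i j = l := ⟨e.symm ⟨l, hl⟩, by simp [i]⟩
      subst hj
      rw [hi.extend_apply, Equiv.Perm.ofSubtype_apply_of_mem _ (hiA j), Equiv.permCongr_apply]
      have h3 : e.symm ⟨i j, hiA j⟩ = j := by
        rw [Equiv.symm_apply_eq]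
      rw [h3]
    · rw [Equiv.Perm.ofSubtype_apply_of_not_mem _ hl, Function.extend_apply']
      rintro ⟨j, rfl⟩
      exact hl (hiA j)
  rw [← Equiv.sum_comp e.permCongr]
  simp only [hx]
  set Z0 : C.A P := z P (f ≫ b) (Function.extend i t (fun l => f ≫ x l)) with hZ0
  -- the sum of the matchings, multiplied by `Z0`
  let zz : (Fin m → (P ⟶ X)) → Fin m ⊕ Fin m → (P ⟶ X) := fun c => Sum.elim c t
  let term : (Fin m → (P ⟶ X)) → Equiv.Perm (Fin m ⊕ Fin m) → C.A P := fun c σ =>
    (∏ j : Fin m, vl C p (zz c (σ (Sum.inl j))) (zz c (σ (Sum.inr j)))) * Z0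
  have hsum : ∀ c, ∑ σ, term c σ = 0 := by
    intro c
    simp only [term]
    rw [← Finset.sum_mul, haf hp hs h (zz c), zero_mul]
  have hbad : ∀ (c) (σ : Equiv.Perm (Fin m ⊕ Fin m)), ¬ Good σ → term c σ = 0 := by
    intro c σ hσ
    rcases good_or σ with h1 | ⟨b1, b2, hbb, h1⟩
    · exact absurd h1 hσ
    have h2 := factor hs (zz c) σ (Sum.inr b1)
    rw [h1] at h2
    simp only [term]
    rw [← Finset.mul_prod_erase Finset.univ _ (Finset.mem_univ (idx σ (Sum.inr b1))), h2]
    have e1 : zz c (Sum.inr b1) = Function.extend i t (fun l => f ≫ x l) (i b1) := by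
      rw [hi.extend_apply]; rfl
    have e2 : zz c (Sum.inr b2) = Function.extend i t (fun l => f ≫ x l) (i b2) := by
      rw [hi.extend_apply]; rfl
    have h4 := hz.top P (f ≫ b) (Function.extend i t (fun l => f ≫ x l)) (i b1) (hiA b1) (i b2)
      (hiA b2) (fun hh => hbb (hi hh))
    rw [← hZ0, ← e1, ← e2] at h4
    linear_combination h4 * (∏ j ∈ Finset.univ.erase (idx σ (Sum.inr b1)),
        vl C p (zz c (σ (Sum.inl j))) (zz c (σ (Sum.inr j))))
  have hgood : ∀ (c) (σ : Equiv.Perm (Fin m ⊕ Fin m)) (ρ : Equiv.Perm (Fin m)),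
      (∀ b, prt σ (Sum.inr b) = Sum.inl (ρ b)) →
      term c σ = (∏ j, vl C p (c (ρ j)) (t j)) * Z0 := by
    intro c σ ρ hρ
    have hinj : Function.Injective fun b : Fin m => idx σ (Sum.inr b) := by
      intro b1 b2 hb
      by_contra hne
      have h1 := idx_eq σ hb (fun h => hne (Sum.inr_injective h))
      rw [hρ] at h1
      cases h1
    let e' : Fin m ≃ Fin m := Equiv.ofBijective _ (Finite.injective_iff_bijective.1 hinj)
    simp only [term]
    congr 1
    rw [← Equiv.prod_comp e']
    refine Finset.prod_congr rfl fun b1 _ => ?_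
    have h2 := factor hs (zz c) σ (Sum.inr b1)
    rw [hρ] at h2
    exact h2.trans (vl_symm hs _ _)
  have hterm : ∀ (c) (σ : Equiv.Perm (Fin m ⊕ Fin m)), term c σ = if hg : Good σ then
      (∏ j, vl C p (c (hg.choose j)) (t j)) * Z0 else 0 := by
    intro c σ
    split_ifs with hg
    · exact hgood c σ _ hg.choose_spec
    · exact hbad c σ hg
  have hperm : ∀ c : Fin m → (P ⟶ X), ∑ ρ : Equiv.Perm (Fin m),
      (∏ j, vl C p (c (ρ j)) (t j)) * Z0 = 0 := by
    intro c
    have h1 : ∑ g : Equiv.Perm (Fin m), ∑ σ : Equiv.Perm (Fin m ⊕ Fin m),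
        term (fun j => c (g j)) σ = 0 := Finset.sum_eq_zero fun g _ => hsum _
    rw [Finset.sum_comm] at h1
    have h2 : ∀ σ : Equiv.Perm (Fin m ⊕ Fin m), ∑ g : Equiv.Perm (Fin m),
        term (fun j => c (g j)) σ = (if Good σ then (1 : ℚ) else 0) •
          ∑ ρ : Equiv.Perm (Fin m), (∏ j, vl C p (c (ρ j)) (t j)) * Z0 := by
      intro σ
      split_ifs with hg
      · rw [one_smul]
        have h3 : ∀ g : Equiv.Perm (Fin m), term (fun j => c (g j)) σ =
            (∏ j, vl C p (c ((g * hg.choose) j)) (t j)) * Z0 := by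
          intro g
          rw [hterm, dif_pos hg]
          rfl
        rw [Finset.sum_congr rfl fun g _ => h3 g]
        exact Equiv.sum_comp (Equiv.mulRight hg.choose)
          (fun ρ : Equiv.Perm (Fin m) => (∏ j, vl C p (c (ρ j)) (t j)) * Z0)
      · rw [zero_smul]
        refine Finset.sum_eq_zero fun g _ => ?_
        rw [hterm, dif_neg hg]
    rw [Finset.sum_congr rfl fun σ _ => h2 σ, ← Finset.sum_smul] at h1
    have h3 : (∑ σ : Equiv.Perm (Fin m ⊕ Fin m), (if Good σ then (1 : ℚ) else 0)) ≠ 0 := by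
      rw [Finset.sum_boole, Nat.cast_ne_zero, Finset.card_ne_zero]
      exact ⟨1, Finset.mem_filter.2 ⟨Finset.mem_univ _, good_one⟩⟩
    exact (smul_eq_zero.1 h1).resolve_left h3
  have h5 : ∀ ρ : Equiv.Perm (Fin m), z W b (Function.extend i (fun j => x (i (ρ j))) x) =
      C.push f ((∏ j, vl C p (f ≫ x (i (ρ j))) (t j)) * Z0) := fun ρ => hP b x i hi hiA _
  rw [Finset.sum_congr rfl fun ρ _ => h5 ρ, ← map_sum, hperm fun j => f ≫ x (i j), map_zero]

end Pool.Agent.R904.Voi
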