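import Mathlib

/-!
# Determinants with vanishing minors
-/

namespace Pool.Agent.R904.Voi

open Equiv

variable {R : Type*} [CommRing R] [Algebra ℚ R]

/-- If all the minors in the columns of `J` are zero then the determinant is zero. -/
theorem det_of_minors {n : ℕ} (M : Matrix (Fin n) (Fin n) R) (J : Finset (Fin n))
    (h : ∀ r : J → Fin n, (Matrix.of fun i j : J => M (r i) j).det = 0) : M.det = 0 := by
  classical
  have h1 : ∀ ρ : Perm J, M.det = ∑ σ : Perm (Fin n), ((Perm.sign σ : ℤ) : R) *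
      (((Perm.sign ρ : ℤ) : R) * ∏ j : Fin n, M (σ (Perm.ofSubtype ρ j)) j) := by
    intro ρ
    rw [Matrix.det_apply', ← Equiv.sum_comp (Equiv.mulRight (Perm.ofSubtype ρ))]
    refine Finset.sum_congr rfl fun σ _ => ?_
    rw [Equiv.coe_mulRight, Perm.sign_mul, Perm.sign_ofSubtype]
    push_cast
    rw [mul_assoc]
    rfl
  have h2 : (Fintype.card (Perm J) : ℚ) • M.det = 0 := by
    have h3 : (Fintype.card (Perm J) : ℚ) • M.det = ∑ _ρ : Perm J, M.det := by
      rw [Finset.sum_const, Finset.card_univ, Nat.cast_smul_eq_nsmul]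
    rw [h3, Finset.sum_congr rfl fun ρ _ => h1 ρ, Finset.sum_comm]
    refine Finset.sum_eq_zero fun σ _ => ?_
    rw [← Finset.mul_sum]
    have h4 : ∀ ρ : Perm J, ((Perm.sign ρ : ℤ) : R) * ∏ j : Fin n, M (σ (Perm.ofSubtype ρ j)) j =
        (((Perm.sign ρ : ℤ) : R) * ∏ j : J, M (σ (ρ j)) j) * ∏ j ∈ Jᶜ, M (σ j) j := by
      intro ρ
      rw [← Finset.prod_mul_prod_compl J, ← Finset.prod_coe_sort, mul_assoc]
      congr 2
      · refine Finset.prod_congr rfl fun j _ => ?_
        rw [Perm.ofSubtype_apply_coe]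
      · refine Finset.prod_congr rfl fun j hj => ?_
        rw [Perm.ofSubtype_apply_of_not_mem _ (Finset.mem_compl.1 hj)]
    rw [Finset.sum_congr rfl fun ρ _ => h4 ρ, ← Finset.sum_mul]
    have h5 := h (fun i => σ i)
    rw [Matrix.det_apply'] at h5
    have h6 : ∑ ρ : Perm J, ((Perm.sign ρ : ℤ) : R) * ∏ j : J, M (σ (ρ j)) j = 0 := h5
    rw [h6, zero_mul, mul_zero]
  exact (smul_eq_zero.1 h2).resolve_left (Nat.cast_ne_zero.2 Fintype.card_ne_zero)

/-- The determinant of a sum of matrices for which the large minors are zero. -/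
theorem det_of_types {n : ℕ} {Φ : Type*} [Fintype Φ] [DecidableEq Φ] (g : Φ → ℕ)
    (hn : ∑ φ, g φ < n) (M : Φ → Matrix (Fin n) (Fin n) R)
    (h : ∀ (φ : Φ) (J : Finset (Fin n)), g φ < J.card → ∀ r : J → Fin n,
      (Matrix.of fun i j : J => M φ (r i) j).det = 0) :
    (Matrix.of fun i j => ∑ φ, M φ i j).det = 0 := by
  classical
  have h1 : (Matrix.of fun i j => ∑ φ, M φ i j).det = ∑ κ : Fin n → Φ,
      (Matrix.of fun i j => M (κ j) i j).det := by
    rw [← Matrix.det_transpose]
    have h2 : (Matrix.of fun i j => ∑ φ, M φ i j).transpose =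
        fun j => ∑ φ, (fun i => M φ i j) := by
      funext j i
      rw [Finset.sum_apply]
      rfl
    have h3 := (Matrix.detRowAlternating (n := Fin n) (R := R)).toMultilinearMap.map_sum
      (fun (j : Fin n) (φ : Φ) => (fun i => M φ i j : Fin n → R))
    change Matrix.detRowAlternating.toMultilinearMap _ = _
    rw [h2]
    refine h3.trans (Finset.sum_congr rfl fun κ _ => ?_)
    rw [← Matrix.det_transpose]
    rfl
  rw [h1]
  refine Finset.sum_eq_zero fun κ _ => ?_
  obtain ⟨φ, hφ⟩ : ∃ φ, g φ < (Finset.univ.filter fun j => κ j = φ).card := by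
    by_contra hcon
    push Not at hcon
    have h2 : n ≤ ∑ φ, g φ := by
      calc n = (Finset.univ : Finset (Fin n)).card := by simp
        _ = ∑ φ, (Finset.univ.filter fun j => κ j = φ).card :=
          Finset.card_eq_sum_card_fiberwise fun j _ => Finset.mem_univ _
        _ ≤ ∑ φ, g φ := Finset.sum_le_sum fun φ _ => hcon φ
    omega
  refine det_of_minors _ (Finset.univ.filter fun j => κ j = φ) fun r => ?_
  rw [← h φ _ hφ r]
  congr 1
  funext i j
  have hj : κ j = φ := (Finset.mem_filter.1 j.2).2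
  rw [Matrix.of_apply, Matrix.of_apply, Matrix.of_apply, hj]

end Pool.Agent.R904.Voi
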