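import Pool.Agent.R904.Voi.Det
import Pool.Agent.R904.Voi.Minors

/-!
# Determinants of zero-cycles on dominated varieties
-/

open CategoryTheory AlgebraicGeometry

universe u v w

namespace Pool.Agent.R904.Voi

open Pool.Agent.H914 Pool.Agent.H914.VarClass Pool.Agent.H914.VarClass.Obj Pool.Agent.W492.BB
  Pool.Agent.W550.Corr Pool.Agent.TH133 Pool.Agent.TH829.Kim

variable {k : Type u} [Field k] {𝒱 : VarClass k}

variable {C : TheoryData.{u, v, 0} 𝒱 ℚ} [hC : IsChowProj C] {X Y Z W V T S : 𝒱.Obj}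

include hC

/-- The vanishing of determinants is preserved by correspondences. -/
theorem det_trans {n : ℕ} (b : C.A (T.prod S)) (β : Fin n → C.A T)
    (h : ∀ (W : 𝒱.Obj) (t : Fin n → (W ⟶ T)),
      (Matrix.of fun i j => C.pull (t i) (β j)).det = 0) (s : Fin n → (W ⟶ S)) :
    (Matrix.of fun i j => C.pull (s i) (C.act b (β j))).det = 0 := by
  obtain ⟨P, f, t, hP⟩ := exists_fub (C := C) W T n
  rw [← Matrix.det_transpose, Matrix.det_apply']
  have h1 : ∀ σ : Equiv.Perm (Fin n), ∏ i, (Matrix.of fun i j =>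
      C.pull (s i) (C.act b (β j))).transpose (σ i) i =
      C.push f ((∏ i, vl C b (t i) (f ≫ s i)) * ∏ i, C.pull (t i) (β (σ i))) := by
    intro σ
    have h2 : ∀ i, vl C b (t i) (f ≫ s i) * C.pull (t i) (β (σ i)) =
        vl C (vl C b (snd W T) (fst W T ≫ s i) * C.pull (snd W T) (β (σ i))) f (t i) := by
      intro i
      conv_rhs => rw [vl, map_mul, pull_vl, lift_snd, ← Category.assoc, lift_fst, ← C.pull_comp,
        lift_snd]
    rw [← Finset.prod_mul_distrib, Finset.prod_congr rfl fun i _ => h2 i, hP]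
    refine Finset.prod_congr rfl fun i _ => ?_
    rw [← pull_act]
    rfl
  have h3 : ∀ σ : Equiv.Perm (Fin n), ((Equiv.Perm.sign σ : ℤ) : C.A W) *
      ∏ i, (Matrix.of fun i j => C.pull (s i) (C.act b (β j))).transpose (σ i) i =
      C.push f ((∏ i, vl C b (t i) (f ≫ s i)) * (((Equiv.Perm.sign σ : ℤ) : C.A P) *
        ∏ i, C.pull (t i) (β (σ i)))) := by
    intro σ
    rw [h1]
    rcases Int.units_eq_one_or (Equiv.Perm.sign σ) with h4 | h4 <;> rw [h4] <;> simp
  rw [Finset.sum_congr rfl fun σ _ => h3 σ, ← map_sum, ← Finset.mul_sum]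
  have h5 := h P t
  rw [← Matrix.det_transpose, Matrix.det_apply'] at h5
  have h6 : ∑ σ : Equiv.Perm (Fin n), ((Equiv.Perm.sign σ : ℤ) : C.A P) *
      ∏ i, C.pull (t i) (β (σ i)) = 0 := h5
  rw [h6, mul_zero, map_zero]

/-- The determinant of classes on `X × Y` which are sums of classes of several types. -/
theorem det_types {n : ℕ} {Φ : Type} [Fintype Φ] [DecidableEq Φ] (γ γ' : Φ → ℕ)
    (hn : ∑ φ, γ φ * γ' φ < n) {p : Φ → C.A (X.prod X)} (hp : ∀ φ, OddSym (p φ) (γ φ))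
    {q : Φ → C.A (Y.prod Y)} (hq : ∀ φ, OddSym (q φ) (γ' φ)) {β : Fin n → C.A (X.prod Y)}
    (hβ : ∀ j, β j ∈ C.gr (X.prod Y) ((X.dim : ℤ) + Y.dim))
    (hsum : ∀ j, C.comp (∑ φ, p φ) (β j) = β j)
    (hpq : ∀ φ j, C.comp (p φ) (β j) = C.comp (β j) (q φ)) (t : Fin n → (W ⟶ X.prod Y)) :
    (Matrix.of fun i j => C.pull (t i) (β j)).det = 0 := by
  classical
  have h1 : (Matrix.of fun i j => C.pull (t i) (β j)) = Matrix.of fun i j =>
      ∑ φ, (Matrix.of fun i j => vl C (C.comp (p φ) (β j)) (t i ≫ fst X Y) (t i ≫ snd X Y) :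
        Matrix (Fin n) (Fin n) (C.A W)) i j := by
    funext i j
    have h2 : Obj.lift (t i ≫ fst X Y) (t i ≫ snd X Y) = t i := by
      apply prod_ext <;> simp
    simp only [Matrix.of_apply]
    rw [← vl_sum, ← sum_comp, hsum, vl, h2]
  rw [h1]
  refine det_of_types (fun φ => γ φ * γ' φ) hn (fun φ => Matrix.of fun i j =>
    vl C (C.comp (p φ) (β j)) (t i ≫ fst X Y) (t i ≫ snd X Y)) fun φ J hJ r => ?_
  let e : J ≃ Fin J.card := J.equivFin
  rw [← Matrix.det_reindex_self e]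
  have h3 := det_zero (W := W) hJ (hp φ) (hq φ)
    (α := fun j : Fin J.card => C.comp (p φ) (β (e.symm j))) (fun j => by
      have h4 := comp_mem C (e := 0) (e' := Y.dim) (Γ := p φ) (Δ := β (e.symm j))
        (by rw [add_zero]; exact (hp φ).deg) (hβ (e.symm j))
      rwa [zero_add] at h4) (fun j => by rw [← comp_assoc, (hp φ).idem]) (fun j => by
      rw [comp_assoc, ← hpq, ← comp_assoc, (hp φ).idem])
    (fun i => t (r (e.symm i)) ≫ fst X Y) (fun i => t (r (e.symm i)) ≫ snd X Y)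
  exact h3

end Pool.Agent.R904.Voi
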