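import Pool.Agent.R904.Voi.Rel
import Pool.Agent.R904.Voi.Alt

/-!
# Determinants of zero-cycles on products
-/

open CategoryTheory AlgebraicGeometry

universe u v w

namespace Pool.Agent.R904.Voi

open Pool.Agent.H914 Pool.Agent.H914.VarClass Pool.Agent.H914.VarClass.Obj Pool.Agent.W492.BB
  Pool.Agent.W550.Corr Pool.Agent.TH133 Pool.Agent.TH829.Kim

variable {k : Type u} [Field k] {𝒱 : VarClass k}

variable {C : TheoryData.{u, v, 0} 𝒱 ℚ} [hC : IsChowProj C] {X Y Z W V T : 𝒱.Obj}

include hC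

/-- A symmetric idempotent correspondence of degree zero for which the permanents of size `2 a + 1`
vanish, on a variety of positive dimension. -/
structure OddSym (p : C.A (X.prod X)) (a : ℕ) : Prop where
  idem : C.comp p p = p
  symm : tp C p = p
  deg : p ∈ C.gr (X.prod X) X.dim
  pos : 0 < X.dim
  perm : PermZero C p (Fin (a + 1) ⊕ Fin (a + 1))

lemma permZero_double {p : C.A (X.prod X)} {a : ℕ} (h : PermZero C p (Fin (2 * a + 1))) :
    PermZero C p (Fin (a + 1) ⊕ Fin (a + 1)) := by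
  have h1 := h.succ
  refine h1.equiv ((finCongr ?_).trans finSumFinEquiv.symm)
  ring

/-- The symmetrization over the positions in `A`. -/
lemma rel_sub {n a : ℕ} {p : C.A (X.prod X)} (hp : OddSym p a) {α : Fin n → C.A (X.prod Y)}
    (hα : ∀ j, α j ∈ C.gr (X.prod Y) ((X.dim : ℤ) + Y.dim))
    (hfix : ∀ j, C.comp p (α j) = α j) (x : Fin n → (W ⟶ X)) (y : Fin n → (W ⟶ Y))
    (A : Finset (Fin n)) (hA : A.card = a + 1) :
    ∑ ρ : Equiv.Perm A, ∏ j, vl C (α j) (x (Equiv.Perm.ofSubtype ρ j)) (y j) = 0 := by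
  classical
  let e : Fin (a + 1) ≃ A := (A.equivFinOfCardEq hA).symm
  have h1 := rel hp.idem hp.symm hp.deg hp.pos hp.perm (α := fun i => α (e i)) (fun i => hα _)
    (fun i => hfix _) (fun i => x (e i)) (fun i => y (e i))
  rw [← Equiv.sum_comp e.permCongr]
  have h2 : ∀ ρ : Equiv.Perm (Fin (a + 1)),
      ∏ j, vl C (α j) (x (Equiv.Perm.ofSubtype (e.permCongr ρ) j)) (y j) =
        (∏ i, vl C (α (e i)) (x (e (ρ i))) (y (e i))) * ∏ j ∈ Aᶜ, vl C (α j) (x j) (y j) := by
    intro ρ
    rw [← Finset.prod_mul_prod_compl A]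
    congr 1
    · rw [← Finset.prod_coe_sort, ← Equiv.prod_comp e]
      refine Finset.prod_congr rfl fun i _ => ?_
      rw [Equiv.Perm.ofSubtype_apply_coe, Equiv.permCongr_apply, Equiv.symm_apply_apply]
    · refine Finset.prod_congr rfl fun j hj => ?_
      rw [Equiv.Perm.ofSubtype_apply_of_not_mem _ (Finset.mem_compl.1 hj)]
  rw [Finset.sum_congr rfl fun ρ _ => h2 ρ, ← Finset.sum_mul, h1, zero_mul]

/-- The determinant of zero-cycles on `X × Y` which come from the product of two motives with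
vanishing permanents of the sizes `2 a + 1` and `2 b + 1` is zero, if its size is greater than
`a b`. -/
theorem det_zero {n a b : ℕ} (hab : a * b < n) {p : C.A (X.prod X)} (hp : OddSym p a)
    {q : C.A (Y.prod Y)} (hq : OddSym q b) {α : Fin n → C.A (X.prod Y)}
    (hα : ∀ j, α j ∈ C.gr (X.prod Y) ((X.dim : ℤ) + Y.dim))
    (hfix : ∀ j, C.comp p (α j) = α j) (hfix' : ∀ j, C.comp (α j) q = α j)
    (x : Fin n → (W ⟶ X)) (y : Fin n → (W ⟶ Y)) :
    (Matrix.of fun i j => vl C (α j) (x i) (y i)).det = 0 := by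
  classical
  have h1 := alt_two hab (M := C.A W) (fun σ τ => ∏ j, vl C (α j) (x (σ j)) (y (τ j))) ?_ ?_
  · rw [Matrix.det_apply, ← h1]
    refine Finset.sum_congr rfl fun σ _ => ?_
    rw [Units.smul_def, Int.cast_smul_eq_zsmul]
    rfl
  · intro A hA σ τ
    exact rel_sub hp hα hfix (fun j => x (σ j)) (fun j => y (τ j)) A hA
  · intro A hA σ τ
    have h2 := rel_sub hq (α := fun j => tp C (α j)) (fun j => by
      have h3 := tp_mem C (hα j)
      rwa [add_comm] at h3) (fun j => by
      rw [← hq.symm, ← tp_comp C (ch_comm C), hfix']) (fun j => y (τ j)) (fun j => x (σ j)) A hA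
    refine Eq.trans (Finset.sum_congr rfl fun ρ _ => Finset.prod_congr rfl fun j _ => ?_) h2
    rw [vl_tp]
    rfl

end Pool.Agent.R904.Voi
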